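import Pool.Agent.W192.CY.Stq
import Pool.Agent.W193.CY.Finn

/-! Project CY: the conclusion for conjugates in a residue class. -/

set_option autoImplicit false

open Complex Filter Topology Set

namespace Pool.Agent.W460.CYM

open Pool.Agent.W192.CY
open Pool.Agent.W193.CY (ev_small mem_Eg order_le Eg_prim)

/-- the elements of `Em` -/
theorem Em_spec (q : ℕ) [NeZero q] (χ₀ χ : DirichletCharacter ℂ q) (M : ℕ)
    (h0 : χ₀.IsPrimitive) (h : χ ∈ Em q χ₀ (Nat.gcd M (orderOf χ₀))) :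
    χ.IsPrimitive ∧ ∃ a : ℕ, Nat.Coprime a (orderOf χ₀) ∧ a % M = 1 % M ∧ χ = χ₀ ^ a := by
  unfold Em at h
  rw [Set.Finite.mem_toFinset] at h
  obtain ⟨a, ha1, ha2, rfl⟩ := h
  refine ⟨(Eg_prim q χ₀ (χ₀ ^ a) h0 ((mem_Eg q χ₀ _).2
    ⟨Subgroup.pow_mem _ (Subgroup.mem_zpowers χ₀) a,
      Nat.Coprime.orderOf_pow (Nat.Coprime.symm ha1)⟩)).1, ?_⟩
  rw [Nat.gcd_comm] at ha2
  obtain ⟨a', h1, h2⟩ := Nat.chineseRemainder' (n := orderOf χ₀) (m := M) (a := a) (b := 1) ha2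
  refine ⟨a', ?_, h2, (pow_eq_pow_iff_modEq.2 h1).symm⟩
  have h3 := Nat.ModEq.gcd_eq h1
  rw [Nat.Coprime, h3]
  exact ha1

theorem m_finn (h1 : S_COEF) (h2 : S_DIV) (h3 : M_MOB) (h4 : M_MAINP) (h5 : M_DUALP) :
    M_FINN := by
  intro V CV hV N hN c w hC hw M₀ hM₀ ε hε
  rcases le_or_gt (1 / 4) ε with hbig | hsmall
  · refine ⟨2, fun q _ hq2 _ L _ χ₀ hχ₀ hle => ?_⟩
    exfalso
    have hq2' : 2 ≤ q := by exact_mod_cast hq2
    have hq1 : (1 : ℝ) ≤ q := by linarith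
    set d := orderOf χ₀ with hddef
    have hdq' : d < q := lt_of_le_of_lt
      (Nat.le_of_dvd (Nat.totient_pos.2 (by omega)) (order_le q χ₀)) (Nat.totient_lt q (by omega))
    have h : (q : ℝ) ^ (1 : ℝ) ≤ (q : ℝ) ^ (3 / 4 + ε) :=
      Real.rpow_le_rpow_of_exponent_le hq1 (by linarith)
    rw [Real.rpow_one] at h
    have : (d : ℝ) < q := by exact_mod_cast hdq'
    linarith
  obtain ⟨m, hm⟩ := h1 N c hC
  obtain ⟨δ1, C1, q1, hδ1, hC1, H1⟩ := h4 V CV hV c m hC.one hm ε hε hsmall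
  obtain ⟨δ2, C2, q2, hδ2, hC2, H2⟩ := h5 V CV hV N hN c m hm ε hε hsmall
  obtain ⟨C3, hC3, H3, -⟩ := h2 (1 / 2) (by norm_num)
  set δ := min δ1 δ2 with hδdef
  have hδ : 0 < δ := lt_min hδ1 hδ2
  obtain ⟨C4, hC4, -, H4⟩ := h2 (δ / 2) (by linarith)
  obtain ⟨q3, H5⟩ := ev_small ((C1 + C2) * C4 * M₀) C3 (δ / 2) (ε / 2) (by linarith) (by linarith)
  refine ⟨max (max (max q1 q2) q3) 2, fun q _ hq0' hqN L hL χ₀ hχ₀ hle => ?_⟩
  have hq0 : max (max q1 q2) q3 ≤ q := le_trans (le_max_left _ _) hq0'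
  have hq2 : (2 : ℝ) ≤ q := le_trans (le_max_right _ _) hq0'
  have hq2' : 2 ≤ q := by exact_mod_cast hq2
  set d := orderOf χ₀ with hddef
  have hqpos : (0 : ℝ) < q := by linarith
  have hq1 : (1 : ℝ) ≤ q := by linarith
  have hqa : q1 ≤ q := le_trans (le_trans (le_max_left _ _) (le_max_left _ _)) hq0
  have hqb : q2 ≤ q := le_trans (le_trans (le_max_right _ _) (le_max_left _ _)) hq0
  have hqc : q3 ≤ q := le_trans (le_max_right _ _) hq0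
  have hdq : (d : ℝ) ≤ q := by
    exact_mod_cast le_trans (Nat.le_of_dvd (Nat.totient_pos.2 (by omega)) (order_le q χ₀))
      (Nat.totient_le q)
  have hd1 : (1 : ℝ) < d := by
    refine lt_of_lt_of_le ?_ hle
    exact Real.one_lt_rpow (by linarith) (by linarith)
  have hd1' : 1 < d := by exact_mod_cast hd1
  have hdpos : (0 : ℝ) < d := by linarith
  by_contra hcon
  push Not at hcon
  set M₁ := Nat.gcd M₀ d with hM₁
  have hM₁1 : 1 ≤ M₁ := Nat.gcd_pos_of_pos_left _ (by omega)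
  have hM₁d : M₁ ∣ d := Nat.gcd_dvd_right _ _
  have hM₁0 : M₁ ≤ M₀ := Nat.gcd_le_left _ (by omega)
  have hLs : ∀ χ ∈ Em q χ₀ M₁, ‖L χ‖ ≤ (q : ℝ) ^ (-ε) := by
    intro χ hχ
    obtain ⟨hp, a, ha, ha', hχa⟩ := Em_spec q χ₀ χ M₀ hχ₀ hχ
    have := hcon a ha ha' (by rw [← hχa]; exact hp)
    rw [← hχa] at this
    exact this.le
  -- sizes
  set B := ⌊(q : ℝ) ^ (ε / 2)⌋₊ with hB
  have hBle : (B : ℝ) ≤ (q : ℝ) ^ (ε / 2) := Nat.floor_le (by positivity)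
  set X := (q : ℝ) ^ (3 / 2 : ℝ) / 2 with hX
  set Y := (N : ℝ) * Real.sqrt q / (2 * Real.pi ^ 2) with hY
  have hNpos : (0 : ℝ) < N := by exact_mod_cast hN
  have hXpos : 0 < X := by positivity
  have hYpos : 0 < Y := by positivity
  have hXY : X * Y = N * (q : ℝ) ^ 2 / (4 * Real.pi ^ 2) := by
    have : (q : ℝ) ^ (3 / 2 : ℝ) * Real.sqrt q = (q : ℝ) ^ 2 := by
      rw [Real.sqrt_eq_rpow, ← Real.rpow_add hqpos, ← Real.rpow_natCast]
      norm_num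
    rw [hX, hY, ← this]
    field_simp
    try ring
  have hL' : ∀ χ ∈ Em q χ₀ M₁, L χ = ∑' n : ℕ, χ (n : ZMod q) * (c n : ℂ) / n *
      (V (n / X) : ℂ) +
        w * χ (N : ZMod q) * gaussSum χ (ZMod.stdAddChar (N := q)) ^ 2 / q *
          ∑' n : ℕ, (starRingEnd ℂ) (χ (n : ZMod q)) * (c n : ℂ) / n *
          (V (n / Y) : ℂ) := by
    intro χ hχ
    exact hL χ (Em_spec q χ₀ χ M₀ hχ₀ hχ).1 X Y hXpos hYpos hXY
  -- the two parts
  have hM := H1 q hqa χ₀ hle M₁ hM₁1 hM₁d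
  have hD := H2 q hqb hqN χ₀ hle M₁ hM₁1 hM₁d
  set T := ∑ b ∈ Finset.Icc 1 B, ((m b / b : ℝ) : ℂ) * ∑ χ ∈ Em q χ₀ M₁,
      χ (b : ZMod q) * (∑' n : ℕ, χ (n : ZMod q) * (c n : ℂ) / n *
        (V (n / X) : ℂ)) with hMdef
  set D := ∑ b ∈ Finset.Icc 1 B, ((m b / b : ℝ) : ℂ) * ∑ χ ∈ Em q χ₀ M₁,
      χ (b : ZMod q) * (χ (N : ZMod q) * gaussSum χ (ZMod.stdAddChar (N := q)) ^ 2 / q *
        ∑' n : ℕ, (starRingEnd ℂ) (χ (n : ZMod q)) * (c n : ℂ) / n *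
        (V (n / Y) : ℂ)) with hDdef
  have hTot : ∑ b ∈ Finset.Icc 1 B, ((m b / b : ℝ) : ℂ) * ∑ χ ∈ Em q χ₀ M₁,
      χ (b : ZMod q) * L χ = T + w * D := by
    rw [hMdef, hDdef, Finset.mul_sum, ← Finset.sum_add_distrib]
    refine Finset.sum_congr rfl fun b _ => ?_
    rw [mul_left_comm w, ← mul_add]
    congr 1
    rw [Finset.mul_sum, ← Finset.sum_add_distrib]
    refine Finset.sum_congr rfl fun χ hχ => ?_
    rw [hL' χ hχ]
    ring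
  have hφpos : (0 : ℝ) < Nat.totient d := by
    exact_mod_cast Nat.totient_pos.2 (by omega)
  obtain ⟨K, hK⟩ : ∃ K : ℕ, K = (Em q χ₀ M₁).card := ⟨_, rfl⟩
  have hcard0 : K * Nat.totient M₁ = Nat.totient d := by
    obtain ⟨t, ht, -⟩ := h3 q χ₀ M₁ hM₁1 hM₁d
    rw [hK]
    exact ht
  have hKφ : (Nat.totient d : ℝ) ≤ K * M₀ := by
    rw [← hcard0]
    push_cast
    have : (Nat.totient M₁ : ℝ) ≤ M₀ := by
      exact_mod_cast (Nat.totient_le M₁).trans hM₁0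
    gcongr
  have hKpos : (0 : ℝ) < K := by
    rcases Nat.eq_zero_or_pos K with h | h
    · rw [h, Nat.cast_zero, zero_mul] at hKφ
      linarith
    · exact_mod_cast h
  rw [← hK] at hM
  -- upper bound
  have hmb : ∀ b ∈ Finset.Icc 1 B, ‖((m b / b : ℝ) : ℂ)‖ ≤ C3 := by
    intro b hb
    have hb1 : 1 ≤ b := (Finset.mem_Icc.1 hb).1
    have hbpos : (0 : ℝ) < b := by exact_mod_cast hb1
    rw [Complex.norm_real, Real.norm_eq_abs, abs_div, abs_of_pos hbpos, div_le_iff₀ hbpos]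
    have e1 := hm.mle b hb1
    have e2 := H3 b hb1
    rw [← Real.sqrt_eq_rpow] at e2
    calc |m b| ≤ b.divisors.card * Real.sqrt b := e1
      _ ≤ (C3 * Real.sqrt b) * Real.sqrt b := by gcongr
      _ = C3 * b := by rw [mul_assoc, Real.mul_self_sqrt hbpos.le]
  have hupper : ‖T + w * D‖ ≤ C3 * (K : ℝ) * (q : ℝ) ^ (-(ε / 2)) := by
    rw [← hTot]
    calc ‖∑ b ∈ Finset.Icc 1 B, ((m b / b : ℝ) : ℂ) * ∑ χ ∈ Em q χ₀ M₁, χ (b : ZMod q) * L χ‖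
        ≤ ∑ b ∈ Finset.Icc 1 B, ‖((m b / b : ℝ) : ℂ) * ∑ χ ∈ Em q χ₀ M₁, χ (b : ZMod q) * L χ‖ :=
          norm_sum_le _ _
      _ ≤ ∑ b ∈ Finset.Icc 1 B, C3 * ((K : ℝ) * (q : ℝ) ^ (-ε)) := by
          refine Finset.sum_le_sum fun b hb => ?_
          rw [norm_mul]
          refine mul_le_mul (hmb b hb) ?_ (norm_nonneg _) hC3.le
          calc ‖∑ χ ∈ Em q χ₀ M₁, χ (b : ZMod q) * L χ‖
              ≤ ∑ χ ∈ Em q χ₀ M₁, ‖χ (b : ZMod q) * L χ‖ := norm_sum_le _ _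
            _ ≤ ∑ χ ∈ Em q χ₀ M₁, (q : ℝ) ^ (-ε) := by
                refine Finset.sum_le_sum fun χ hχ => ?_
                rw [norm_mul]
                calc ‖χ (b : ZMod q)‖ * ‖L χ‖ ≤ 1 * (q : ℝ) ^ (-ε) :=
                      mul_le_mul (DirichletCharacter.norm_le_one χ _) (hLs χ hχ)
                        (norm_nonneg _) zero_le_one
                  _ = _ := one_mul _
            _ = (K : ℝ) * (q : ℝ) ^ (-ε) := by
                rw [Finset.sum_const, nsmul_eq_mul, hK]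
      _ = (B : ℝ) * (C3 * ((K : ℝ) * (q : ℝ) ^ (-ε))) := by
          rw [Finset.sum_const, nsmul_eq_mul, Nat.card_Icc]
          simp
      _ ≤ (q : ℝ) ^ (ε / 2) * (C3 * ((K : ℝ) * (q : ℝ) ^ (-ε))) := by
          gcongr
      _ = C3 * (K : ℝ) * ((q : ℝ) ^ (ε / 2) * (q : ℝ) ^ (-ε)) := by ring
      _ = C3 * (K : ℝ) * (q : ℝ) ^ (-(ε / 2)) := by
          rw [← Real.rpow_add hqpos]
          congr 2
          ring
  -- lower bound
  have hlow : (K : ℝ) ≤ ‖T + w * D‖ + C1 * d * (q : ℝ) ^ (-δ1) +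
      C2 * d * (q : ℝ) ^ (-δ2) := by
    have e1 : ((K : ℕ) : ℂ) = (T + w * D) - (T - (K : ℂ)) - w * D := by
      ring
    calc (K : ℝ) = ‖((K : ℕ) : ℂ)‖ := by simp
      _ = ‖(T + w * D) - (T - (K : ℂ)) - w * D‖ := by rw [← e1]
      _ ≤ ‖(T + w * D) - (T - (K : ℂ))‖ + ‖w * D‖ := norm_sub_le _ _
      _ ≤ ‖T + w * D‖ + ‖T - (K : ℂ)‖ + ‖w * D‖ := by
          gcongr
          exact norm_sub_le _ _
      _ ≤ _ := by
          rw [norm_mul, hw, one_mul]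
          gcongr
  have hq1' : (q : ℝ) ^ (-δ1) ≤ (q : ℝ) ^ (-δ) :=
    Real.rpow_le_rpow_of_exponent_le hq1 (neg_le_neg (min_le_left _ _))
  have hq2' : (q : ℝ) ^ (-δ2) ≤ (q : ℝ) ^ (-δ) :=
    Real.rpow_le_rpow_of_exponent_le hq1 (neg_le_neg (min_le_right _ _))
  have hφ := H4 d (by omega)
  have hdφ : (d : ℝ) * (q : ℝ) ^ (-δ) ≤ C4 * Nat.totient d * (q : ℝ) ^ (-(δ / 2)) := by
    have e1 : (d : ℝ) = (d : ℝ) ^ (1 - δ / 2) * (d : ℝ) ^ (δ / 2) := by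
      rw [← Real.rpow_add hdpos]
      simp
    have e2 : (d : ℝ) ^ (δ / 2) ≤ (q : ℝ) ^ (δ / 2) :=
      Real.rpow_le_rpow hdpos.le hdq (by linarith)
    calc (d : ℝ) * (q : ℝ) ^ (-δ)
        = (d : ℝ) ^ (1 - δ / 2) * (d : ℝ) ^ (δ / 2) * (q : ℝ) ^ (-δ) := by rw [← e1]
      _ ≤ (C4 * Nat.totient d) * (q : ℝ) ^ (δ / 2) * (q : ℝ) ^ (-δ) := by
          gcongr
      _ = C4 * Nat.totient d * ((q : ℝ) ^ (δ / 2) * (q : ℝ) ^ (-δ)) := by ring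
      _ = C4 * Nat.totient d * (q : ℝ) ^ (-(δ / 2)) := by
          rw [← Real.rpow_add hqpos]
          congr 2
          ring
  have hfin := H5 q hqc
  have key : (K : ℝ) ≤ K *
      ((C1 + C2) * C4 * M₀ * (q : ℝ) ^ (-(δ / 2)) + C3 * (q : ℝ) ^ (-(ε / 2))) := by
    calc (K : ℝ) ≤ ‖T + w * D‖ + C1 * d * (q : ℝ) ^ (-δ1) +
          C2 * d * (q : ℝ) ^ (-δ2) := hlow
      _ ≤ C3 * K * (q : ℝ) ^ (-(ε / 2)) + C1 * d * (q : ℝ) ^ (-δ) +
          C2 * d * (q : ℝ) ^ (-δ) := by gcongr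
      _ = C3 * K * (q : ℝ) ^ (-(ε / 2)) + (C1 + C2) * (d * (q : ℝ) ^ (-δ)) := by
          ring
      _ ≤ C3 * K * (q : ℝ) ^ (-(ε / 2)) + (C1 + C2) *
          (C4 * Nat.totient d * (q : ℝ) ^ (-(δ / 2))) := by gcongr
      _ ≤ C3 * K * (q : ℝ) ^ (-(ε / 2)) + (C1 + C2) *
          (C4 * (K * M₀) * (q : ℝ) ^ (-(δ / 2))) := by gcongr
      _ = _ := by ring
  have : (K : ℝ) * ((C1 + C2) * C4 * M₀ * (q : ℝ) ^ (-(δ / 2)) +
      C3 * (q : ℝ) ^ (-(ε / 2))) < K * 1 := by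
    gcongr
  linarith

end Pool.Agent.W460.CYM
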