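import Pool.Agent.W192.CY.Stn
import Pool.Agent.W916.CY.MainB

set_option autoImplicit false
set_option maxHeartbeats 1000000

/-! MAINP : the main part, mollified, all moduli (adapted from the file of helper916). -/

namespace Pool.Agent.W460.CY

open Finset
open Pool.Agent.W192.CY
open Pool.Agent.W916.CY (ai ai_abs GG EE summ_EE c_bound reindex pe_bound)

/-- the weights -/
noncomputable def WW (q : ℕ) (χ₀ : DirichletCharacter ℂ q) (k : ℕ) : ℝ :=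
  ∑ e ∈ (orderOf χ₀).divisors,
    ((ArithmeticFunction.moebius (orderOf χ₀ / e) : ℤ) : ℝ) * ((e : ℝ) * ai q (Hg q χ₀ e) k)

theorem WW_abs (q : ℕ) (χ₀ : DirichletCharacter ℂ q) (k : ℕ) :
    |WW q χ₀ k| ≤ ∑ e ∈ (orderOf χ₀).divisors, (e : ℝ) := by
  unfold WW
  refine (abs_sum_le_sum_abs _ _).trans (sum_le_sum (fun e _ => ?_))
  rw [abs_mul, abs_mul, Nat.abs_cast]
  have h1 : |((ArithmeticFunction.moebius (orderOf χ₀ / e) : ℤ) : ℝ)| ≤ 1 := by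
    have := ArithmeticFunction.abs_moebius_le_one (n := orderOf χ₀ / e)
    exact_mod_cast this
  have h2 := ai_abs q (Hg q χ₀ e) k
  calc _ ≤ 1 * ((e : ℝ) * 1) := by gcongr
    _ = e := by ring

theorem sum_chi (h2 : G_ORTH) (h3 : G_MOB) (q : ℕ) [NeZero q] (χ₀ : DirichletCharacter ℂ q)
    (k : ℕ) : ∑ χ ∈ Eg q χ₀, χ (k : ZMod q) = (WW q χ₀ k : ℂ) := by
  classical
  rw [(h3 q χ₀).2 (fun χ => χ (k : ZMod q))]
  unfold WW
  push_cast
  refine sum_congr rfl (fun e he => ?_)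
  have hed : e ∣ orderOf χ₀ := Nat.dvd_of_mem_divisors he
  congr 1
  by_cases hu : IsUnit (k : ZMod q)
  · obtain ⟨u, hu⟩ := hu
    obtain ⟨g1, g2⟩ := (h2 q χ₀ e hed).2 u
    by_cases hm : u ∈ Hg q χ₀ e
    · have e1 : ai q (Hg q χ₀ e) k = 1 := by
        unfold ai; rw [if_pos ⟨u, hm, hu⟩]
      rw [e1, ← hu, g1 hm]
      simp
    · have e1 : ai q (Hg q χ₀ e) k = 0 := by
        unfold ai; rw [if_neg]
        rintro ⟨v, hv, hv'⟩
        have : v = u := Units.ext (hv'.trans hu.symm)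
        exact hm (this ▸ hv)
      rw [e1, ← hu, g2 hm]
      simp
  · have e1 : ai q (Hg q χ₀ e) k = 0 := by
      unfold ai; rw [if_neg]
      rintro ⟨v, _, hv'⟩
      exact hu ⟨v, hv'⟩
    rw [e1]
    rw [sum_eq_zero (fun χ _ => MulChar.map_nonunit χ hu)]
    simp

/-- the double sum as a real number -/
theorem double_sum (h2 : G_ORTH) (h3 : G_MOB) {c m : ℕ → ℝ} (h : Inv c m) (q : ℕ)
    [NeZero q] (χ₀ : DirichletCharacter ℂ q) (B : ℕ) (X : ℝ) (hX : 0 < X) :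
    ∑ b ∈ Icc 1 B, ((m b / b : ℝ) : ℂ) * ∑ χ ∈ Eg q χ₀,
      χ (b : ZMod q) * (∑' n : ℕ, χ (n : ZMod q) * (c n : ℂ) / n * (Real.exp (-(n / X)) : ℂ)) =
    ((∑ e ∈ (orderOf χ₀).divisors, ((ArithmeticFunction.moebius (orderOf χ₀ / e) : ℤ) : ℝ) * ((e : ℝ) *
      ∑' k : ℕ, ai q (Hg q χ₀ e) k * GG c m B X k / k) : ℝ) : ℂ) := by
  classical
  have hsχ : ∀ χ : DirichletCharacter ℂ q, Summable (fun n : ℕ => χ (n : ZMod q) * (c n : ℂ) / n *
      (Real.exp (-(n / X)) : ℂ)) := by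
    intro χ
    refine Summable.of_norm_bounded (g := fun n : ℕ => (n : ℝ) ^ 1 * EE X n)
      (summ_EE X hX 1) (fun n => ?_)
    rw [norm_mul, norm_div, norm_mul, Complex.norm_real, Complex.norm_real, Complex.norm_natCast,
      Real.norm_eq_abs, Real.norm_eq_abs, abs_of_pos (Real.exp_pos _), pow_one]
    have h1 : ‖χ (n : ZMod q)‖ ≤ 1 := χ.norm_le_one _
    have h4 : |c n| / n ≤ n := by
      rcases Nat.eq_zero_or_pos n with h0 | h0
      · subst h0; simp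
      · rw [div_le_iff₀ (by exact_mod_cast h0), ← pow_two]
        exact c_bound h n
    have h5 := Real.exp_pos (-((n : ℝ) / X))
    unfold EE
    calc ‖χ (n : ZMod q)‖ * |c n| / n * Real.exp (-(n / X)) =
          ‖χ (n : ZMod q)‖ * (|c n| / n) * Real.exp (-(n / X)) := by ring
      _ ≤ 1 * n * Real.exp (-(n / X)) := by gcongr
      _ = _ := by ring
  have hb : ∀ b : ℕ, ∑ χ ∈ Eg q χ₀, χ (b : ZMod q) * (∑' n : ℕ, χ (n : ZMod q) * (c n : ℂ) / n *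
      (Real.exp (-(n / X)) : ℂ)) =
      ((∑' n : ℕ, WW q χ₀ (b * n) * c n / n * EE X n : ℝ) : ℂ) := by
    intro b
    have e1 : ∀ χ ∈ Eg q χ₀, χ (b : ZMod q) * (∑' n : ℕ, χ (n : ZMod q) * (c n : ℂ) / n *
        (Real.exp (-(n / X)) : ℂ)) = ∑' n : ℕ, χ (b : ZMod q) * (χ (n : ZMod q) * (c n : ℂ) / n *
        (Real.exp (-(n / X)) : ℂ)) := fun χ _ => tsum_mul_left.symm
    rw [sum_congr rfl e1, ← Summable.tsum_finsetSum (fun χ _ => (hsχ χ).mul_left _),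
      Complex.ofReal_tsum]
    refine tsum_congr (fun n => ?_)
    have e2 : ∀ χ ∈ Eg q χ₀, χ (b : ZMod q) * (χ (n : ZMod q) * (c n : ℂ) / n *
        (Real.exp (-(n / X)) : ℂ)) = χ ((b * n : ℕ) : ZMod q) * ((c n : ℂ) / n *
        (Real.exp (-(n / X)) : ℂ)) := by
      intro χ _
      rw [Nat.cast_mul, map_mul]
      ring
    rw [sum_congr rfl e2, ← sum_mul, sum_chi h2 h3 q χ₀]
    unfold EE
    push_cast
    ring
  obtain ⟨hs, hre⟩ := reindex h B X hX (WW q χ₀) _ (WW_abs q χ₀)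
  have hL : ∑ b ∈ Icc 1 B, ((m b / b : ℝ) : ℂ) * ∑ χ ∈ Eg q χ₀,
      χ (b : ZMod q) * (∑' n : ℕ, χ (n : ZMod q) * (c n : ℂ) / n * (Real.exp (-(n / X)) : ℂ)) =
      ((∑ b ∈ Icc 1 B, m b / b * ∑' n : ℕ, WW q χ₀ (b * n) * c n / n * EE X n : ℝ) : ℂ) := by
    rw [Complex.ofReal_sum]
    refine sum_congr rfl (fun b _ => ?_)
    rw [hb b, ← Complex.ofReal_mul]
  rw [hL, hre]
  congr 1
  have hse : ∀ e ∈ (orderOf χ₀).divisors, Summable (fun k : ℕ =>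
      ((ArithmeticFunction.moebius (orderOf χ₀ / e) : ℤ) : ℝ) * ((e : ℝ) *
        (ai q (Hg q χ₀ e) k * GG c m B X k / k))) := by
    intro e _
    exact ((reindex h B X hX (ai q (Hg q χ₀ e)) 1 (ai_abs q _)).1.mul_left _).mul_left _
  have e3 : ∀ k : ℕ, WW q χ₀ k * GG c m B X k / k = ∑ e ∈ (orderOf χ₀).divisors,
      ((ArithmeticFunction.moebius (orderOf χ₀ / e) : ℤ) : ℝ) * ((e : ℝ) *
        (ai q (Hg q χ₀ e) k * GG c m B X k / k)) := by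
    intro k
    unfold WW
    rw [sum_mul, sum_div]
    refine sum_congr rfl (fun e _ => ?_)
    ring
  rw [tsum_congr e3, Summable.tsum_finsetSum hse]
  refine sum_congr rfl (fun e _ => ?_)
  rw [tsum_mul_left, tsum_mul_left]

theorem moebius_sum (d : ℕ) (hd : 0 < d) :
    ∑ e ∈ d.divisors, ((ArithmeticFunction.moebius (d / e) : ℤ) : ℝ) * (e : ℝ) =
      (Nat.totient d : ℝ) := by
  have h1 : ∀ n : ℕ, n > 0 → ∑ i ∈ n.divisors, ((Nat.totient i : ℕ) : ℝ) = (n : ℝ) := by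
    intro n _
    have := Nat.sum_totient n
    exact_mod_cast this
  have h2 := (ArithmeticFunction.sum_eq_iff_sum_mul_moebius_eq
    (f := fun n => ((Nat.totient n : ℕ) : ℝ)) (g := fun n => (n : ℝ))).1 h1 d hd
  rw [Nat.sum_divisorsAntidiagonal' (fun a b => ((ArithmeticFunction.moebius a : ℤ) : ℝ) * (b : ℝ))]
    at h2
  exact h2

theorem g_mainp (h1 : S_DIV) (h2 : G_ORTH) (h3 : G_MOB) (h4 : G_TAIL) : G_MAINP := by
  classical
  intro c m hc hInv ε hε hε4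
  obtain ⟨η, δ0, C0, hη, hη8, hδ0, hC0, htail⟩ := h4 ε hε hε4
  obtain ⟨Ca, hCa, hdiv, _⟩ := h1 (η / 3) (by positivity)
  obtain ⟨ρ, hρ, hρ1, hρ2⟩ : ∃ ρ : ℝ, 0 < ρ ∧ 2 * ρ ≤ δ0 ∧ 2 * ρ ≤ 1 / 2 := by
    refine ⟨min δ0 (1 / 2) / 2, by positivity, ?_, ?_⟩
    · linarith [min_le_left δ0 (1 / 2)]
    · linarith [min_le_right δ0 (1 / 2)]
  obtain ⟨Cb, hCb, hdivb, _⟩ := h1 ρ hρ
  obtain ⟨C1, hC1⟩ : ∃ C1 : ℝ, C1 = Ca ^ 3 := ⟨_, rfl⟩
  have hC1pos : 0 < C1 := by rw [hC1]; positivity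
  have hC1b : ∀ n : ℕ, 1 ≤ n → (n.divisors.card : ℝ) ^ 3 ≤ C1 * (n : ℝ) ^ η := by
    intro n hn
    have := hdiv n hn
    calc (n.divisors.card : ℝ) ^ 3 ≤ (Ca * (n : ℝ) ^ (η / 3)) ^ 3 := by gcongr
      _ = C1 * ((n : ℝ) ^ (η / 3)) ^ 3 := by rw [mul_pow, hC1]
      _ = C1 * (n : ℝ) ^ η := by
          rw [← Real.rpow_natCast, ← Real.rpow_mul (by positivity)]
          congr 2
          push_cast
          ring
  refine ⟨ρ, Cb * (1 + C1 * C0) + 1, 1, hρ, by positivity, ?_⟩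
  intro q hq _ χ₀ hdq
  obtain ⟨d, hddef⟩ : ∃ d : ℕ, d = orderOf χ₀ := ⟨_, rfl⟩
  have hq1 : 1 ≤ q := Nat.one_le_iff_ne_zero.2 (NeZero.ne q)
  have hqR : (1 : ℝ) ≤ q := by exact_mod_cast hq1
  have hqpos : (0 : ℝ) < q := by linarith
  obtain ⟨X, hXdef⟩ : ∃ X : ℝ, X = (q : ℝ) ^ (3 / 2 : ℝ) := ⟨_, rfl⟩
  have hX : 0 < X := by rw [hXdef]; positivity
  obtain ⟨Bx, hBxdef⟩ : ∃ Bx : ℝ, Bx = (q : ℝ) ^ (ε / 2) := ⟨_, rfl⟩
  have hBx : 1 ≤ Bx := by rw [hBxdef]; exact Real.one_le_rpow hqR (by positivity)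
  have hdpos : 0 < d := by
    rw [hddef]
    exact orderOf_pos χ₀
  have hcard : ∀ e : ℕ, e ∣ orderOf χ₀ → e * Nat.card (Hg q χ₀ e) ≤ q := fun e he =>
    (h2 q χ₀ e he).1.le.trans (Nat.totient_le q)
  have hdle : d ≤ q := by
    have g1 := hcard (orderOf χ₀) dvd_rfl
    have g2 : 0 < Nat.card (Hg q χ₀ (orderOf χ₀)) := Nat.card_pos
    rw [← hddef] at g1 g2
    exact (Nat.le_mul_of_pos_right d g2).trans g1
  have hdR : (0 : ℝ) < d := by exact_mod_cast hdpos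
  rw [← hXdef, ← hBxdef, double_sum h2 h3 hInv q χ₀ _ X hX]
  rw [← hddef] at hdq hcard ⊢
  have hφ : (Nat.totient d : ℂ) = ((Nat.totient d : ℝ) : ℂ) := by push_cast; rfl
  rw [hφ, ← Complex.ofReal_sub, Complex.norm_real, Real.norm_eq_abs]
  -- the terms
  have hP : ∀ e ∈ d.divisors, (e : ℝ) * |∑' k : ℕ, ai q (Hg q χ₀ e) k * GG c m ⌊Bx⌋₊ X k / k - EE X 1| ≤
      d * (Bx ^ 5 / X) + C1 * (C0 * d * (q : ℝ) ^ (-δ0)) := by
    intro e he
    have hed := Nat.dvd_of_mem_divisors he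
    have hele : (e : ℝ) ≤ d := by exact_mod_cast Nat.le_of_dvd hdpos hed
    have b1 := pe_bound hInv hc η C1 hη8 hC1pos hC1b q (Hg q χ₀ e) Bx X hBx hX
    have b2 := htail q d e hed hdle hdq (Hg q χ₀ e) (hcard e hed)
    have b3 : Bx * X = (q : ℝ) ^ (3 / 2 + ε / 2) := by
      rw [hBxdef, hXdef, ← Real.rpow_add hqpos]
      congr 1
      ring
    rw [b3] at b1
    rw [← hBxdef] at b2
    calc (e : ℝ) * |∑' k : ℕ, ai q (Hg q χ₀ e) k * GG c m ⌊Bx⌋₊ X k / k - EE X 1| ≤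
          e * (Bx ^ 5 / X + C1 * tail q (Hg q χ₀ e) Bx ((q : ℝ) ^ (3 / 2 + ε / 2)) η) := by gcongr
      _ = e * (Bx ^ 5 / X) + C1 * (e * tail q (Hg q χ₀ e) Bx ((q : ℝ) ^ (3 / 2 + ε / 2)) η) := by ring
      _ ≤ d * (Bx ^ 5 / X) + C1 * (C0 * d * (q : ℝ) ^ (-δ0)) := by gcongr
  have hsplit : ∑ e ∈ d.divisors, ((ArithmeticFunction.moebius (d / e) : ℤ) : ℝ) * ((e : ℝ) *
      ∑' k : ℕ, ai q (Hg q χ₀ e) k * GG c m ⌊Bx⌋₊ X k / k) - (Nat.totient d : ℝ) =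
      ∑ e ∈ d.divisors, ((ArithmeticFunction.moebius (d / e) : ℤ) : ℝ) * ((e : ℝ) *
        (∑' k : ℕ, ai q (Hg q χ₀ e) k * GG c m ⌊Bx⌋₊ X k / k - EE X 1)) +
      (EE X 1 - 1) * (Nat.totient d : ℝ) := by
    rw [← moebius_sum d hdpos, mul_sum, ← sum_add_distrib, ← sum_sub_distrib]
    refine sum_congr rfl (fun e _ => ?_)
    ring
  rw [hsplit]
  have hE1 : |EE X 1 - 1| ≤ 1 / X := by
    have e3 : EE X 1 ≤ 1 := by
      unfold EE
      rw [Real.exp_le_one_iff]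
      have : (0 : ℝ) ≤ ((1 : ℕ) : ℝ) / X := by positivity
      linarith
    rw [abs_of_nonpos (by linarith)]
    have e4 : 1 - ((1 : ℕ) : ℝ) / X ≤ EE X 1 := by
      unfold EE
      have := Real.add_one_le_exp (-(((1 : ℕ) : ℝ) / X))
      linarith
    push_cast at e4
    linarith
  have hτ : (d.divisors.card : ℝ) ≤ Cb * (q : ℝ) ^ ρ := by
    refine (hdivb d hdpos).trans ?_
    have : (d : ℝ) ≤ q := by exact_mod_cast hdle
    gcongr
  have hφd : (Nat.totient d : ℝ) ≤ d := by exact_mod_cast Nat.totient_le d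
  have hmain : |∑ e ∈ d.divisors, ((ArithmeticFunction.moebius (d / e) : ℤ) : ℝ) * ((e : ℝ) *
        (∑' k : ℕ, ai q (Hg q χ₀ e) k * GG c m ⌊Bx⌋₊ X k / k - EE X 1))| ≤
      d.divisors.card * (d * (Bx ^ 5 / X) + C1 * (C0 * d * (q : ℝ) ^ (-δ0))) := by
    calc _ ≤ ∑ e ∈ d.divisors, |((ArithmeticFunction.moebius (d / e) : ℤ) : ℝ) * ((e : ℝ) *
        (∑' k : ℕ, ai q (Hg q χ₀ e) k * GG c m ⌊Bx⌋₊ X k / k - EE X 1))| := abs_sum_le_sum_abs _ _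
      _ ≤ ∑ e ∈ d.divisors, (d * (Bx ^ 5 / X) + C1 * (C0 * d * (q : ℝ) ^ (-δ0))) := by
          refine sum_le_sum (fun e he => ?_)
          rw [abs_mul, abs_mul, Nat.abs_cast]
          have g1 : |((ArithmeticFunction.moebius (d / e) : ℤ) : ℝ)| ≤ 1 := by
            have := ArithmeticFunction.abs_moebius_le_one (n := d / e)
            exact_mod_cast this
          have g2 := hP e he
          have g3 : 0 ≤ (e : ℝ) * |∑' k : ℕ, ai q (Hg q χ₀ e) k * GG c m ⌊Bx⌋₊ X k / k - EE X 1| := by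
            positivity
          calc _ ≤ 1 * ((e : ℝ) * |∑' k : ℕ, ai q (Hg q χ₀ e) k * GG c m ⌊Bx⌋₊ X k / k - EE X 1|) := by
                gcongr
            _ ≤ _ := by rw [one_mul]; exact g2
      _ = _ := by rw [sum_const, nsmul_eq_mul]
  -- numerical estimates
  have hn1 : Bx ^ 5 / X ≤ (q : ℝ) ^ (-(2 * ρ)) := by
    rw [hBxdef, hXdef, ← Real.rpow_natCast, ← Real.rpow_mul hqpos.le, ← Real.rpow_sub hqpos]
    apply Real.rpow_le_rpow_of_exponent_le hqR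
    push_cast
    linarith
  have hn2 : (q : ℝ) ^ (-δ0) ≤ (q : ℝ) ^ (-(2 * ρ)) :=
    Real.rpow_le_rpow_of_exponent_le hqR (by linarith)
  have hn3 : 1 / X ≤ (q : ℝ) ^ (-ρ) := by
    rw [hXdef, one_div, ← Real.rpow_neg hqpos.le]
    exact Real.rpow_le_rpow_of_exponent_le hqR (by linarith)
  have hn4 : (q : ℝ) ^ ρ * (q : ℝ) ^ (-(2 * ρ)) = (q : ℝ) ^ (-ρ) := by
    rw [← Real.rpow_add hqpos]
    congr 1
    ring
  have hQ : 0 < (q : ℝ) ^ (-ρ) := by positivity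
  calc _ ≤ d.divisors.card * (d * (Bx ^ 5 / X) + C1 * (C0 * d * (q : ℝ) ^ (-δ0))) +
        1 / X * (Nat.totient d : ℝ) := by
        refine (abs_add_le _ _).trans (add_le_add hmain ?_)
        rw [abs_mul, Nat.abs_cast]
        gcongr
    _ ≤ (Cb * (q : ℝ) ^ ρ) * (d * (q : ℝ) ^ (-(2 * ρ)) + C1 * (C0 * d * (q : ℝ) ^ (-(2 * ρ)))) +
        (q : ℝ) ^ (-ρ) * d := by gcongr
    _ = Cb * (1 + C1 * C0) * d * ((q : ℝ) ^ ρ * (q : ℝ) ^ (-(2 * ρ))) + (q : ℝ) ^ (-ρ) * d := by ring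
    _ = (Cb * (1 + C1 * C0) + 1) * d * (q : ℝ) ^ (-ρ) := by rw [hn4]; ring

end Pool.Agent.W460.CY
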